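import Mathlib

set_option autoImplicit false

/-!
# Common eigenfunctionals of commuting involutions of a lattice
-/

namespace Pool.Agent.H959.MF

open Module

variable {L : Type*} [AddCommGroup L] [Module.Free ℤ L] [Module.Finite ℤ L]

omit [Module.Finite ℤ L] in
lemma exists_eigen (l : List (L →ₗ[ℤ] L)) (hl : ∀ a ∈ l, ∀ x, a (a x) = x)
    (hc : ∀ a ∈ l, ∀ b ∈ l, ∀ x, a (b x) = b (a x)) (t : L) (ht : t ≠ 0) :
    ∃ f : L →ₗ[ℤ] ℤ, f t ≠ 0 ∧ ∀ a ∈ l, (∀ x, f (a x) = f x) ∨ (∀ x, f (a x) = - f x) := by
  induction l with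
  | nil =>
    by_contra h
    push Not at h
    refine ht ((Module.forall_dual_apply_eq_zero_iff ℤ t).1 fun f => ?_)
    by_contra hf
    obtain ⟨a, ha, _⟩ := h f hf
    simp at ha
  | cons a l ih =>
    obtain ⟨f, hf, hfl⟩ := ih (fun b hb => hl b (List.mem_cons_of_mem _ hb))
      (fun b hb c hc' => hc b (List.mem_cons_of_mem _ hb) c (List.mem_cons_of_mem _ hc'))
    have haa := hl a List.mem_cons_self
    by_cases h1 : f t + f (a t) ≠ 0
    · refine ⟨f + f.comp a, by simpa using h1, ?_⟩
      intro b hb
      rcases List.mem_cons.1 hb with rfl | hb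
      · left
        intro x
        simp only [LinearMap.add_apply, LinearMap.comp_apply, haa]
        ring
      · have hab := hc a List.mem_cons_self b (List.mem_cons_of_mem _ hb)
        rcases hfl b hb with h | h
        · left
          intro x
          simp only [LinearMap.add_apply, LinearMap.comp_apply, hab, h]
        · right
          intro x
          simp only [LinearMap.add_apply, LinearMap.comp_apply, hab, h]
          ring
    · have h2 : f t - f (a t) ≠ 0 := by
        intro h2
        push Not at h1
        apply hf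
        linarith
      refine ⟨f - f.comp a, by simpa using h2, ?_⟩
      intro b hb
      rcases List.mem_cons.1 hb with rfl | hb
      · right
        intro x
        simp only [LinearMap.sub_apply, LinearMap.comp_apply, haa]
        ring
      · have hab := hc a List.mem_cons_self b (List.mem_cons_of_mem _ hb)
        rcases hfl b hb with h | h
        · left
          intro x
          simp only [LinearMap.sub_apply, LinearMap.comp_apply, hab, h]
        · right
          intro x
          simp only [LinearMap.sub_apply, LinearMap.comp_apply, hab, h]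
          ring

lemma exists_eigen_family (l : List (L →ₗ[ℤ] L)) (hl : ∀ a ∈ l, ∀ x, a (a x) = x)
    (hc : ∀ a ∈ l, ∀ b ∈ l, ∀ x, a (b x) = b (a x)) (r : ℕ) :
    ∀ K : Submodule ℤ L, finrank ℤ K ≤ r →
    ∃ f : Fin r → (L →ₗ[ℤ] ℤ), (∀ i, ∀ a ∈ l, (∀ x, f i (a x) = f i x) ∨ (∀ x, f i (a x) = - f i x)) ∧
      ∀ t ∈ K, (∀ i, f i t = 0) → t = 0 := by
  induction r with
  | zero =>
    intro K hK
    have h1 : K = ⊥ := Submodule.finrank_eq_zero.1 (by omega)
    refine ⟨fun i => i.elim0, fun i => i.elim0, fun t ht _ => ?_⟩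
    rw [h1] at ht
    exact (Submodule.mem_bot ℤ).1 ht
  | succ r ih =>
    intro K hK
    by_cases hK0 : K = ⊥
    · refine ⟨fun _ => 0, fun i a _ => Or.inl fun x => by simp, fun t ht _ => ?_⟩
      rw [hK0] at ht
      exact (Submodule.mem_bot ℤ).1 ht
    · obtain ⟨t, htK, ht⟩ := (Submodule.ne_bot_iff K).1 hK0
      obtain ⟨f, hf, hfl⟩ := exists_eigen l hl hc t ht
      have h1 := Submodule.finrank_quotient_add_finrank (LinearMap.ker (f.domRestrict K))
      rw [(f.domRestrict K).quotKerEquivRange.finrank_eq] at h1
      have h2 : 1 ≤ finrank ℤ (LinearMap.range (f.domRestrict K)) := by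
        rw [Nat.one_le_iff_ne_zero]
        intro h
        rw [Submodule.finrank_eq_zero] at h
        have h3 : f t ∈ LinearMap.range (f.domRestrict K) := ⟨⟨t, htK⟩, rfl⟩
        rw [h] at h3
        exact hf ((Submodule.mem_bot ℤ).1 h3)
      obtain ⟨F, hF, hF'⟩ := ih ((LinearMap.ker (f.domRestrict K)).map K.subtype) (by
        rw [Submodule.finrank_map_subtype_eq]; omega)
      refine ⟨Fin.cons f F, fun i => ?_, fun s hs h0 => ?_⟩
      · refine Fin.cases ?_ (fun i => ?_) i
        · simpa using hfl
        · simpa using hF i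
      · refine hF' s ⟨⟨s, hs⟩, ?_, rfl⟩ fun i => by simpa using h0 i.succ
        have := h0 0
        simpa using this

end Pool.Agent.H959.MF
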