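import Pool.Agent.H959.MF.Grp
import Pool.Agent.H959.MF.Lat

set_option autoImplicit false

/-!
# Discrete groups of isometries all of whose squares are translations
-/

namespace Pool.Agent.H959.MF

universe u

open Module Metric

variable {E : Type*} [NormedAddCommGroup E] [NormedSpace ℝ E]
variable {Γ : Type u} [Group Γ] [MulAction Γ E]

lemma exists_linear (g : Γ) (h : Isometry (fun x : E => g • x)) :
    ∃ A : E →L[ℝ] E, (∀ v, ‖A v‖ = ‖v‖) ∧ ∀ x v : E, g • (x + v) = g • x + A v := by
  let e : E ≃ᵢ E := { toEquiv := MulAction.toPerm g, isometry_toFun := h }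
  let f := e.toRealAffineIsometryEquiv
  refine ⟨(f.linearIsometryEquiv.toContinuousLinearEquiv : E →L[ℝ] E), fun v => ?_, fun x v => ?_⟩
  · exact f.linearIsometryEquiv.norm_map v
  · have h1 := f.map_vadd x v
    have h2 : ∀ y, f y = g • y := fun y => rfl
    rw [h2, h2, vadd_eq_add, vadd_eq_add] at h1
    rw [add_comm x v, h1, add_comm]
    rfl

theorem geo [FiniteDimensional ℝ E] (n : ℕ) (hn : finrank ℝ E ≤ n)
    (h_iso : ∀ g : Γ, Isometry (fun x : E => g • x))
    (h_eff : ∀ g : Γ, (∀ x : E, g • x = x) → g = 1)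
    (h_disc : ∀ K : Set E, IsCompact K → {g : Γ | (((fun x => g • x) '' K) ∩ K).Nonempty}.Finite)
    (h_sq : ∀ g : Γ, ∃ v : E, ∀ x : E, g • (g • x) = x + v) : Cov Γ (2 ^ n) := by
  classical
  choose A hA1 hA2 using fun g : Γ => exists_linear (E := E) g (h_iso g)
  have hmul : ∀ (g h : Γ) v, A (g * h) v = A g (A h v) := by
    intro g h v
    have h1 := hA2 (g * h) 0 v
    rw [mul_smul, mul_smul, hA2 h, hA2 g] at h1
    exact (add_left_cancel h1).symm
  have hone : ∀ v, A (1 : Γ) v = v := by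
    intro v
    have h1 := hA2 (1 : Γ) 0 v
    rw [one_smul, one_smul, zero_add, zero_add] at h1
    exact h1.symm
  have hinvol : ∀ (g : Γ) v, A g (A g v) = v := by
    intro g v
    obtain ⟨w, hw⟩ := h_sq g
    have h1 := hA2 (g * g) 0 v
    rw [mul_smul, mul_smul, hw, hw, hmul, zero_add, zero_add, add_comm] at h1
    exact (add_left_cancel h1).symm
  have hcomm : ∀ (g h : Γ) u, A g (A h u) = A h (A g u) := by
    intro g h u
    have h1 := hinvol (g * h) (A h (A g u))
    rw [hmul, hmul, hinvol, hinvol] at h1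
    exact h1
  have hinv1 : ∀ (g : Γ) v, A g (A g⁻¹ v) = v := by
    intro g v
    rw [← hmul, mul_inv_cancel, hone]
  let T : Subgroup Γ :=
    { carrier := {g | ∀ v, A g v = v}
      one_mem' := hone
      mul_mem' := by
        intro a b ha hb v
        rw [hmul, hb, ha]
      inv_mem' := by
        intro a ha v
        rw [← ha (A a⁻¹ v), hinv1] }
  have hT : ∀ g, g ∈ T ↔ ∀ v, A g v = v := fun g => Iff.rfl
  have hTn : T.Normal := ⟨by
    intro t ht g
    rw [hT]
    intro v
    rw [hmul, hmul, ht, hinv1]⟩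
  have hTadd : ∀ t ∈ T, ∀ x : E, t • x = x + t • (0 : E) := by
    intro t ht x
    have h1 := hA2 t 0 x
    rw [zero_add, ht x] at h1
    rw [h1, add_comm]
  -- the linear parts are finite in number
  have hdist : ∀ g h : Γ, dist (A g) (A h) < 2 → ∀ v, A g v = A h v := by
    intro g h hd
    by_contra hcon
    push Not at hcon
    obtain ⟨w, hw⟩ := hcon
    have hw' : A (h⁻¹ * g) w ≠ w := by
      intro h1
      apply hw
      rw [hmul] at h1
      rw [← h1, hinv1, h1]
    set u : E := w - A (h⁻¹ * g) w with hu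
    have hu0 : u ≠ 0 := by
      intro h0
      apply hw'
      rw [hu, sub_eq_zero] at h0
      exact h0.symm
    have hBu : A (h⁻¹ * g) u = - u := by
      rw [hu, map_sub, hinvol]
      abel
    have hgu : A g u = - A h u := by
      have h2 : A h (A (h⁻¹ * g) u) = A g u := by
        rw [← hmul]; congr 2; group
      rw [← h2, hBu, map_neg]
    have h3 : (A g - A h) u = -((2 : ℝ) • A h u) := by
      rw [sub_apply, hgu, two_smul]
      abel
    have h4 := (A g - A h).le_opNorm u
    rw [h3, norm_neg, norm_smul, hA1, Real.norm_ofNat] at h4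
    rw [dist_eq_norm] at hd
    have h5 : 0 < ‖u‖ := norm_pos_iff.2 hu0
    nlinarith
  have hfin : Finite (Γ ⧸ T) := by
    obtain ⟨t, htfin, hcov⟩ := Metric.totallyBounded_iff.1
      (isCompact_closedBall (0 : E →L[ℝ] E) 1).totallyBounded 1 one_pos
    have h1 : ∀ g : Γ, ∃ y ∈ t, A g ∈ ball y 1 := by
      intro g
      have h2 : A g ∈ closedBall (0 : E →L[ℝ] E) 1 := by
        rw [mem_closedBall, dist_zero_right]
        exact ContinuousLinearMap.opNorm_le_bound _ zero_le_one fun v => by rw [hA1, one_mul]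
      have := hcov h2
      simpa using this
    choose c hc1 hc2 using h1
    have : Finite t := htfin
    refine Finite.of_injective (fun q : Γ ⧸ T => (⟨c q.out, hc1 _⟩ : t)) ?_
    intro q q' hqq
    have h3 : c q.out = c q'.out := congrArg Subtype.val hqq
    have h4 : dist (A q.out) (A q'.out) < 2 := by
      have h5 := hc2 q.out
      have h6 := hc2 q'.out
      rw [← h3] at h6
      rw [mem_ball] at h5 h6
      have := dist_triangle_right (A q.out) (A q'.out) (c q.out)
      linarith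
    have h7 := hdist _ _ h4
    have h8 : (q.out : Γ)⁻¹ * q'.out ∈ T := by
      rw [hT]
      intro v
      rw [hmul, ← h7, ← hmul, inv_mul_cancel, hone]
    rw [← Quotient.out_eq' q, ← Quotient.out_eq' q']
    exact QuotientGroup.eq.2 h8
  have hTfi : T.FiniteIndex := Subgroup.finiteIndex_of_finite_quotient
  -- the lattice of translation vectors
  let L' : AddSubgroup E :=
    { carrier := {v | ∃ g ∈ T, g • (0 : E) = v}
      zero_mem' := ⟨1, T.one_mem, one_smul _ _⟩
      add_mem' := by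
        rintro _ _ ⟨a, ha, rfl⟩ ⟨b, hb, rfl⟩
        refine ⟨b * a, T.mul_mem hb ha, ?_⟩
        rw [mul_smul, hTadd b hb]
      neg_mem' := by
        rintro _ ⟨a, ha, rfl⟩
        refine ⟨a⁻¹, T.inv_mem ha, ?_⟩
        have h1 := hTadd a⁻¹ (T.inv_mem ha) (a • (0 : E))
        rw [inv_smul_smul] at h1
        exact eq_neg_of_add_eq_zero_right h1.symm }
  let L : Submodule ℤ E := AddSubgroup.toIntSubmodule L'
  have hL : ∀ v, v ∈ L ↔ ∃ g ∈ T, g • (0 : E) = v := fun v => Iff.rfl
  have hLfin : {v : E | v ∈ L ∧ ‖v‖ ≤ 1}.Finite := by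
    have h1 := h_disc (closedBall (0 : E) 1) (isCompact_closedBall 0 1)
    refine (h1.image fun g : Γ => g • (0 : E)).subset ?_
    rintro v ⟨hv, hv1⟩
    obtain ⟨g, hg, rfl⟩ := (hL v).1 hv
    refine ⟨g, ⟨g • (0 : E), ⟨0, by simp, rfl⟩, by simpa using hv1⟩, rfl⟩
  have hdisc : DiscreteTopology L := by
    apply discreteTopology_of_isOpen_singleton_zero
    rw [Metric.isOpen_singleton_iff]
    have h1 : IsOpen ({v : E | v ∈ L ∧ ‖v‖ ≤ 1} \ {0})ᶜ :=
      (hLfin.subset Set.sdiff_subset).isClosed.isOpen_compl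
    obtain ⟨ε, hε, hball⟩ := Metric.isOpen_iff.1 h1 0 (by simp)
    refine ⟨min ε 1, lt_min hε one_pos, fun y hy => ?_⟩
    have h2 : dist (y : E) 0 < min ε 1 := hy
    have h3 : (y : E) ∈ ball (0 : E) ε := lt_of_lt_of_le h2 (min_le_left _ _)
    have h4 := hball h3
    by_contra hne
    apply h4
    refine ⟨⟨y.2, ?_⟩, ?_⟩
    · rw [dist_zero_right] at h2
      exact (lt_of_lt_of_le h2 (min_le_right _ _)).le
    · intro h5
      exact hne (Subtype.ext h5)
  have hrank : finrank ℤ (⊤ : Submodule ℤ L) ≤ n := by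
    rw [finrank_top]
    have hs : Submodule.span ℤ (L : Set E) = L := Submodule.span_eq L
    have h1 : DiscreteTopology (Submodule.span ℤ (L : Set E)) := by rw [hs]; exact hdisc
    have h2 := Real.finrank_eq_int_finrank_of_discrete (s := (L : Set E)) h1
    have h3 : Set.finrank ℤ (L : Set E) = finrank ℤ L := by
      rw [Set.finrank, hs]
    rw [← h3, ← h2]
    exact (Submodule.finrank_le _).trans hn
  have hAL : ∀ g : Γ, ∀ v ∈ L, A g v ∈ L := by
    intro g v hv
    obtain ⟨t, ht, rfl⟩ := (hL v).1 hv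
    refine (hL _).2 ⟨g * t * g⁻¹, hTn.conj_mem t ht g, ?_⟩
    rw [mul_smul, mul_smul, hTadd t ht, hA2, smul_inv_smul, zero_add]
  let α : Γ → (L →ₗ[ℤ] L) := fun g => ((A g).toLinearMap.restrictScalars ℤ).restrict (hAL g)
  have hα : ∀ g (x : L), ((α g x : L) : E) = A g x := fun g x => rfl
  have : Fintype (Γ ⧸ T) := Fintype.ofFinite _
  let l : List (L →ₗ[ℤ] L) := (Finset.univ : Finset (Γ ⧸ T)).toList.map fun q => α q.out
  have hlmem : ∀ a ∈ l, ∃ g : Γ, a = α g := by
    intro a ha
    obtain ⟨q, _, rfl⟩ := List.mem_map.1 ha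
    exact ⟨q.out, rfl⟩
  have hlα : ∀ g : Γ, α g ∈ l := by
    intro g
    refine List.mem_map.2 ⟨(g : Γ ⧸ T), by simp, ?_⟩
    obtain ⟨s, hs⟩ := QuotientGroup.mk_out_eq_mul T g
    refine LinearMap.ext fun x => Subtype.ext ?_
    rw [hα, hα, hs, hmul, s.2]
  obtain ⟨f, hf1, hf2⟩ := exists_eigen_family l
    (by
      intro a ha x
      obtain ⟨g, rfl⟩ := hlmem a ha
      exact Subtype.ext (by rw [hα, hα, hinvol]))
    (by
      intro a ha b hb x
      obtain ⟨g, rfl⟩ := hlmem a ha
      obtain ⟨h, rfl⟩ := hlmem b hb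
      exact Subtype.ext (by rw [hα, hα, hα, hα, hcomm]))
    n ⊤ hrank
  let τ : Γ → L := fun g => if h : g ∈ T then ⟨g • (0 : E), (hL _).2 ⟨g, h, rfl⟩⟩ else 0
  have hτ : ∀ g ∈ T, ((τ g : L) : E) = g • (0 : E) := by
    intro g hg
    simp [τ, hg]
  refine cover n Γ T (fun i g => f i (τ g)) ?_ ?_ ?_
  · intro i s hs t ht
    rw [← map_add]
    congr 1
    refine Subtype.ext ?_
    rw [hτ _ (T.mul_mem hs ht), Submodule.coe_add, hτ s hs, hτ t ht, mul_smul, hTadd s hs, add_comm]
  · intro i g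
    have h1 : ∀ t ∈ T, τ (g * t * g⁻¹) = α g (τ t) := by
      intro t ht
      refine Subtype.ext ?_
      rw [hτ _ (hTn.conj_mem t ht g), hα, hτ t ht, mul_smul, mul_smul, hTadd t ht (g⁻¹ • 0), hA2,
        smul_inv_smul, zero_add]
    rcases hf1 i (α g) (hlα g) with h | h
    · left
      intro t ht
      rw [h1 t ht, h]
    · right
      intro t ht
      rw [h1 t ht, h]
  · intro t ht h0
    have h1 := hf2 (τ t) Submodule.mem_top h0
    have h2 : t • (0 : E) = 0 := by
      rw [← hτ t ht, h1]; rfl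
    refine h_eff t fun x => ?_
    rw [hTadd t ht, h2, add_zero]

end Pool.Agent.H959.MF
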