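import Mathlib

set_option autoImplicit false

/-!
# Maximal finite subgroups: the group theory

A group with a normal subgroup of finite index that has `r` jointly injective additive integer
functionals, each one preserved up to sign by all conjugations, is covered by `2 ^ r` finite
subgroups up to conjugation.
-/

namespace Pool.Agent.H959.MF

universe u

/-- every finite subgroup of `G` is conjugate into one of at most `c` finite subgroups -/
def Cov (G : Type u) [Group G] (c : ℕ) : Prop :=
  ∃ S : Set (Subgroup G), S.encard ≤ c ∧ (∀ A ∈ S, (A : Set G).Finite) ∧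
    ∀ F : Subgroup G, (F : Set G).Finite → ∃ A ∈ S, ∃ g : G, ∀ x ∈ F, g * x * g⁻¹ ∈ A

/-- the transfer of an invariant functional -/
lemma exists_transfer {H : Type u} [Group H] (T : Subgroup H) [T.Normal] [T.FiniteIndex]
    (l : H → ℤ) (hadd : ∀ s ∈ T, ∀ t ∈ T, l (s * t) = l s + l t)
    (hinv : ∀ h : H, ∀ t ∈ T, l (h * t * h⁻¹) = l t) :
    ∃ (V : H → ℤ) (m : ℤ), 0 < m ∧ (∀ a b, V (a * b) = V a + V b) ∧ ∀ t ∈ T, V t = m * l t := by
  classical
  have : Fintype (H ⧸ T) := Subgroup.fintypeQuotientOfFiniteIndex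
  let s : H ⧸ T → H := Quotient.out
  have hs : ∀ q : H ⧸ T, ((s q : H) : H ⧸ T) = q := fun q => Quotient.out_eq' q
  have hmem : ∀ (a : H) (q : H ⧸ T), (s ((a : H ⧸ T) * q))⁻¹ * a * s q ∈ T := by
    intro a q
    have h1 : (((s ((a : H ⧸ T) * q))⁻¹ * a * s q : H) : H ⧸ T) = 1 := by
      rw [QuotientGroup.mk_mul, QuotientGroup.mk_mul, QuotientGroup.mk_inv, hs, hs]
      group
    exact (QuotientGroup.eq_one_iff _).1 h1
  refine ⟨fun a => ∑ q : H ⧸ T, l ((s ((a : H ⧸ T) * q))⁻¹ * a * s q), Fintype.card (H ⧸ T),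
    by exact_mod_cast Fintype.card_pos, ?_, ?_⟩
  · intro a b
    have h1 : ∀ q : H ⧸ T, l ((s (((a * b : H) : H ⧸ T) * q))⁻¹ * (a * b) * s q) =
        l ((s ((a : H ⧸ T) * ((b : H ⧸ T) * q)))⁻¹ * a * s ((b : H ⧸ T) * q)) +
        l ((s ((b : H ⧸ T) * q))⁻¹ * b * s q) := by
      intro q
      rw [← hadd _ (hmem a _) _ (hmem b q)]
      congr 1
      rw [QuotientGroup.mk_mul, mul_assoc (a : H ⧸ T) (b : H ⧸ T) q]
      group
    simp only []
    rw [Finset.sum_congr rfl fun q _ => h1 q, Finset.sum_add_distrib]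
    congr 1
    exact Fintype.sum_equiv (Equiv.mulLeft (b : H ⧸ T)) _ _ fun q => rfl
  · intro t ht
    have ht1 : (t : H ⧸ T) = 1 := (QuotientGroup.eq_one_iff t).2 ht
    have h1 : ∀ q : H ⧸ T, l ((s ((t : H ⧸ T) * q))⁻¹ * t * s q) = l t := by
      intro q
      rw [ht1, one_mul]
      have := hinv (s q)⁻¹ t ht
      rwa [inv_inv] at this
    simp only []
    rw [Finset.sum_congr rfl fun q _ => h1 q]
    simp

lemma Cov.of_sub {G : Type u} [Group G] (M : Subgroup G) {c : ℕ} (h : Cov M c) :
    ∃ S : Set (Subgroup G), S.encard ≤ c ∧ (∀ A ∈ S, (A : Set G).Finite) ∧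
      ∀ F : Subgroup G, (F : Set G).Finite → F ≤ M → ∃ A ∈ S, ∃ g : G, ∀ x ∈ F, g * x * g⁻¹ ∈ A := by
  obtain ⟨S, h1, h2, h3⟩ := h
  refine ⟨(fun A : Subgroup M => A.map M.subtype) '' S, (Set.encard_image_le _ _).trans h1, ?_, ?_⟩
  · rintro _ ⟨A, hA, rfl⟩
    simp only [Subgroup.coe_map]
    exact (h2 A hA).image _
  · intro F hF hFM
    have hF' : ((F.subgroupOf M : Subgroup M) : Set M).Finite := by
      have : ((F.subgroupOf M : Subgroup M) : Set M) = M.subtype ⁻¹' (F : Set G) := by
        ext x; simp [Subgroup.mem_subgroupOf]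
      rw [this]
      exact hF.preimage (Subtype.val_injective.injOn)
    obtain ⟨A, hA, g, hg⟩ := h3 _ hF'
    refine ⟨A.map M.subtype, ⟨A, hA, rfl⟩, g, fun x hx => ?_⟩
    refine ⟨g * ⟨x, hFM hx⟩ * g⁻¹, hg _ (by simpa [Subgroup.mem_subgroupOf] using hx), by simp⟩

theorem cover (r : ℕ) : ∀ (G : Type u) [Group G] (T : Subgroup G) [T.Normal] [T.FiniteIndex]
    (j : Fin r → G → ℤ) (_ : ∀ i, ∀ s ∈ T, ∀ t ∈ T, j i (s * t) = j i s + j i t)
    (_ : ∀ i, ∀ g : G, (∀ t ∈ T, j i (g * t * g⁻¹) = j i t) ∨ (∀ t ∈ T, j i (g * t * g⁻¹) = - j i t))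
    (_ : ∀ t ∈ T, (∀ i, j i t = 0) → t = 1), Cov G (2 ^ r) := by
  induction r with
  | zero =>
    intro G _ T _ _ j _ _ hinj
    have hT : T = ⊥ := by
      rw [eq_bot_iff]
      intro t ht
      exact Subgroup.mem_bot.2 (hinj t ht fun i => i.elim0)
    have hfin : Finite G := by
      have h1 : T.index ≠ 0 := Subgroup.FiniteIndex.index_ne_zero
      rw [hT, Subgroup.index_bot] at h1
      exact (Nat.card_ne_zero.1 h1).2
    refine ⟨{⊤}, by simp, ?_, ?_⟩
    · intro A _
      exact Set.toFinite _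
    · intro F _
      exact ⟨⊤, rfl, 1, fun x _ => Subgroup.mem_top _⟩
  | succ r ih =>
    intro G _ T _ _ j hadd hsign hinj
    have hl1 : ∀ s ∈ T, j 0 s⁻¹ = - j 0 s := by
      intro s hs
      have h0 : j 0 (1 : G) = 0 := by
        have := hadd 0 1 T.one_mem 1 T.one_mem
        rw [mul_one] at this
        linarith
      have := hadd 0 s hs s⁻¹ (T.inv_mem hs)
      rw [mul_inv_cancel, h0] at this
      linarith
    -- a general way to apply the induction hypothesis
    have key : ∀ M : Subgroup G, (∀ t ∈ T, t ∈ M → j 0 t = 0) → Cov M (2 ^ r) := by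
      intro M hM
      refine ih M (T.subgroupOf M) (fun i x => j i.succ x) ?_ ?_ ?_
      · intro i s hs t ht
        exact hadd i.succ s (Subgroup.mem_subgroupOf.1 hs) t (Subgroup.mem_subgroupOf.1 ht)
      · intro i g
        rcases hsign i.succ g with h | h
        · left
          intro t ht
          exact h t (Subgroup.mem_subgroupOf.1 ht)
        · right
          intro t ht
          exact h t (Subgroup.mem_subgroupOf.1 ht)
      · intro t ht h0
        have h1 : (t : G) = 1 := by
          refine hinj t (Subgroup.mem_subgroupOf.1 ht) fun i => ?_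
          refine Fin.cases ?_ (fun i => h0 i) i
          exact hM t (Subgroup.mem_subgroupOf.1 ht) t.2
        exact Subtype.ext h1
    -- the subgroup preserving the first functional
    let P : Subgroup G :=
      { carrier := {g | ∀ t ∈ T, j 0 (g * t * g⁻¹) = j 0 t}
        one_mem' := by intro t _; simp
        mul_mem' := by
          intro a b ha hb t ht
          have h1 : a * b * t * (a * b)⁻¹ = a * (b * t * b⁻¹) * a⁻¹ := by group
          rw [h1, ha _ (Subgroup.Normal.conj_mem ‹T.Normal› t ht b), hb t ht]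
        inv_mem' := by
          intro a ha t ht
          have h1 := ha (a⁻¹ * t * a⁻¹⁻¹) (Subgroup.Normal.conj_mem ‹T.Normal› t ht a⁻¹)
          have h2 : a * (a⁻¹ * t * a⁻¹⁻¹) * a⁻¹ = t := by group
          rw [h2] at h1
          exact h1.symm }
    have hP : ∀ g, g ∈ P ↔ ∀ t ∈ T, j 0 (g * t * g⁻¹) = j 0 t := fun g => Iff.rfl
    have hneg : ∀ g, g ∉ P → ∀ t ∈ T, j 0 (g * t * g⁻¹) = - j 0 t := by
      intro g hg
      rcases hsign 0 g with h | h
      · exact absurd h hg
      · exact h
    have hTP : ∀ t ∈ T, t ∈ P := by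
      intro t ht s hs
      rw [hadd 0 _ (T.mul_mem ht hs) _ (T.inv_mem ht), hadd 0 _ ht _ hs, hl1 t ht]
      ring
    have hmulneg : ∀ a b, a ∉ P → b ∉ P → a * b ∈ P := by
      intro a b ha hb t ht
      have h1 : a * b * t * (a * b)⁻¹ = a * (b * t * b⁻¹) * a⁻¹ := by group
      rw [h1, hneg a ha _ (Subgroup.Normal.conj_mem ‹T.Normal› t ht b), hneg b hb t ht, neg_neg]
    obtain ⟨V, m, hm, hV, hVT⟩ := exists_transfer (T.subgroupOf P) (fun x : P => j 0 x)
      (fun s hs t ht => hadd 0 s (Subgroup.mem_subgroupOf.1 hs) t (Subgroup.mem_subgroupOf.1 ht))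
      (fun h t ht => h.2 t (Subgroup.mem_subgroupOf.1 ht))
    -- extend `V` by a function on `G`
    classical
    let W : G → ℤ := fun g => if h : g ∈ P then V ⟨g, h⟩ else 0
    have hW : ∀ g (h : g ∈ P), W g = V ⟨g, h⟩ := fun g h => by simp [W, h]
    have hWadd : ∀ a b, a ∈ P → b ∈ P → W (a * b) = W a + W b := by
      intro a b ha hb
      rw [hW _ (P.mul_mem ha hb), hW a ha, hW b hb, ← hV]
      rfl
    have hW1 : W 1 = 0 := by
      have := hWadd 1 1 P.one_mem P.one_mem
      rw [mul_one] at this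
      linarith
    have hWinv : ∀ a, a ∈ P → W a⁻¹ = - W a := by
      intro a ha
      have := hWadd a a⁻¹ ha (P.inv_mem ha)
      rw [mul_inv_cancel, hW1] at this
      linarith
    have hWT : ∀ t ∈ T, W t = m * j 0 t := by
      intro t ht
      rw [hW t (hTP t ht)]
      exact hVT ⟨t, hTP t ht⟩ (Subgroup.mem_subgroupOf.2 ht)
    have hWpow : ∀ a, a ∈ P → ∀ k : ℕ, W (a ^ k) = k * W a := by
      intro a ha k
      induction k with
      | zero => simp [hW1]
      | succ k ihk =>
        rw [pow_succ, hWadd _ _ (P.pow_mem ha k) ha, ihk]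
        push_cast
        ring
    have hWfin : ∀ F : Subgroup G, (F : Set G).Finite → ∀ x ∈ F, x ∈ P → W x = 0 := by
      intro F hF x hx hxP
      have : Finite F := hF
      have h1 : IsOfFinOrder (⟨x, hx⟩ : F) := isOfFinOrder_of_finite _
      obtain ⟨k, hk, hk1⟩ := isOfFinOrder_iff_pow_eq_one.1 h1
      have h2 : x ^ k = 1 := by
        have := congrArg Subtype.val hk1
        simpa using this
      have h3 := hWpow x hxP k
      rw [h2, hW1] at h3
      have h4 : (k : ℤ) ≠ 0 := by exact_mod_cast hk.ne'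
      rcases mul_eq_zero.1 h3.symm with h | h
      · exact absurd h h4
      · exact h
    by_cases hall : ∀ g, g ∈ P
    · -- all elements preserve the functional
      let K : Subgroup G :=
        { carrier := {g | W g = 0}
          one_mem' := hW1
          mul_mem' := by
            intro a b ha hb
            simp only [Set.mem_ofPred_eq] at *
            rw [hWadd a b (hall a) (hall b), ha, hb, add_zero]
          inv_mem' := by
            intro a ha
            simp only [Set.mem_ofPred_eq] at *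
            rw [hWinv a (hall a), ha, neg_zero] }
      obtain ⟨S, h1, h2, h3⟩ := (key K (by
        intro t ht htK
        have h4 : W t = 0 := htK
        rw [hWT t ht] at h4
        rcases mul_eq_zero.1 h4 with h | h
        · omega
        · exact h)).of_sub
      refine ⟨S, h1.trans ?_, h2, fun F hF => h3 F hF fun x hx => hWfin F hF x hx (hall x)⟩
      exact_mod_cast Nat.pow_le_pow_right (by norm_num) (Nat.le_succ r)
    · push Not at hall
      obtain ⟨σ, hσ⟩ := hall
      have hPconj : ∀ a g, a ∈ P → g * a * g⁻¹ ∈ P := by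
        intro a g ha
        by_cases hg : g ∈ P
        · exact P.mul_mem (P.mul_mem hg ha) (P.inv_mem hg)
        · have hg' : g⁻¹ ∉ P := fun h => hg (by simpa using P.inv_mem h)
          have hga : g * a ∉ P := fun h => hg (by simpa using P.mul_mem h (P.inv_mem ha))
          exact hmulneg _ _ hga hg'
      have hconjneg : ∀ a g, a ∈ P → g ∉ P → W (g * a * g⁻¹) = - W a := by
        intro a g ha hg
        have hidx : T.index ≠ 0 := Subgroup.FiniteIndex.index_ne_zero
        have h1 : a ^ T.index ∈ T := Subgroup.pow_index_mem T a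
        have h2 := hWpow a ha T.index
        have h3 := hWpow (g * a * g⁻¹) (hPconj a g ha) T.index
        rw [conj_pow] at h3
        rw [hWT _ h1] at h2
        rw [hWT _ (Subgroup.Normal.conj_mem ‹T.Normal› _ h1 g), hneg g hg _ h1] at h3
        have h4 : (T.index : ℤ) * (W (g * a * g⁻¹) + W a) = 0 := by
          rw [mul_add, ← h3, ← h2]; ring
        rcases mul_eq_zero.1 h4 with h | h
        · exact absurd (by exact_mod_cast h) hidx
        · linarith
      have hconjpos : ∀ a g, a ∈ P → g ∈ P → W (g * a * g⁻¹) = W a := by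
        intro a g ha hg
        rw [hWadd _ _ (P.mul_mem hg ha) (P.inv_mem hg), hWadd _ _ hg ha, hWinv g hg]
        ring
      -- the subgroups `M σ`
      have hsq : ∀ τ, τ ∉ P → W (τ * τ) = 0 := by
        intro τ hτ
        have h1 := hconjneg (τ * τ) τ (hmulneg _ _ hτ hτ) hτ
        have h2 : τ * (τ * τ) * τ⁻¹ = τ * τ := by group
        rw [h2] at h1
        linarith
      have hMex : ∀ τ, τ ∉ P → ∃ M : Subgroup G, (∀ x, x ∈ P → (x ∈ M ↔ W x = 0)) ∧
          (∀ x, x ∉ P → (x ∈ M ↔ W (x * τ⁻¹) = 0)) := by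
        intro τ hτ
        have hτ' : τ⁻¹ ∉ P := fun h => hτ (by simpa using P.inv_mem h)
        have hsqinv : W (τ⁻¹ * τ⁻¹) = 0 := hsq _ hτ'
        have hnm : ∀ a b, a ∈ P → b ∉ P → a * b ∉ P := fun a b ha hb h =>
          hb (by simpa using P.mul_mem (P.inv_mem ha) h)
        have hmn : ∀ a b, a ∉ P → b ∈ P → a * b ∉ P := fun a b ha hb h =>
          ha (by simpa using P.mul_mem h (P.inv_mem hb))
        let M : Subgroup G :=
          { carrier := {x | (x ∈ P ∧ W x = 0) ∨ (x ∉ P ∧ W (x * τ⁻¹) = 0)}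
            one_mem' := Or.inl ⟨P.one_mem, hW1⟩
            mul_mem' := by
              rintro a b (⟨ha, ha0⟩ | ⟨ha, ha0⟩) (⟨hb, hb0⟩ | ⟨hb, hb0⟩)
              · exact Or.inl ⟨P.mul_mem ha hb, by rw [hWadd a b ha hb, ha0, hb0, add_zero]⟩
              · refine Or.inr ⟨hnm a b ha hb, ?_⟩
                rw [mul_assoc, hWadd a _ ha (hmulneg _ _ hb hτ'), ha0, hb0, add_zero]
              · refine Or.inr ⟨hmn a b ha hb, ?_⟩
                have h1 : a * b * τ⁻¹ = (a * τ⁻¹) * (τ * b * τ⁻¹) := by group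
                rw [h1, hWadd _ _ (hmulneg _ _ ha hτ') (hPconj b τ hb), ha0,
                  hconjneg b τ hb hτ, hb0]
                simp
              · refine Or.inl ⟨hmulneg a b ha hb, ?_⟩
                have h1 : a * b = (a * τ⁻¹) * (τ * (b * τ⁻¹) * τ⁻¹) * (τ * τ) := by group
                have h2 := hmulneg _ _ ha hτ'
                have h3 := hPconj _ τ (hmulneg _ _ hb hτ')
                rw [h1, hWadd _ _ (P.mul_mem h2 h3) (hmulneg _ _ hτ hτ), hWadd _ _ h2 h3, ha0,
                  hconjneg _ τ (hmulneg _ _ hb hτ') hτ, hb0, hsq τ hτ]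
                simp
            inv_mem' := by
              rintro a (⟨ha, ha0⟩ | ⟨ha, ha0⟩)
              · exact Or.inl ⟨P.inv_mem ha, by rw [hWinv a ha, ha0, neg_zero]⟩
              · have ha' : a⁻¹ ∉ P := fun h => ha (by simpa using P.inv_mem h)
                refine Or.inr ⟨ha', ?_⟩
                have h1 : a⁻¹ * τ⁻¹ = (τ⁻¹ * (a * τ⁻¹)⁻¹ * τ⁻¹⁻¹) * (τ⁻¹ * τ⁻¹) := by group
                have h2 := hmulneg _ _ ha hτ'
                rw [h1, hWadd _ _ (hPconj _ _ (P.inv_mem h2)) (hmulneg _ _ hτ' hτ'),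
                  hconjneg _ _ (P.inv_mem h2) hτ', hWinv _ h2, ha0, hsqinv]
                simp }
        have hM : ∀ x, x ∈ M ↔ (x ∈ P ∧ W x = 0) ∨ (x ∉ P ∧ W (x * τ⁻¹) = 0) := fun x => Iff.rfl
        refine ⟨M, fun x hx => ?_, fun x hx => ?_⟩
        · rw [hM]; simp [hx]
        · rw [hM]; simp [hx]
      -- a generator of the values of `W` on `P`
      obtain ⟨g₁, hg₁, hgen⟩ : ∃ g₁ ∈ P, ∀ a ∈ P, W g₁ ∣ W a := by
        let R : AddSubgroup ℤ :=
          { carrier := {z | ∃ a ∈ P, W a = z}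
            zero_mem' := ⟨1, P.one_mem, hW1⟩
            add_mem' := by
              rintro _ _ ⟨a, ha, rfl⟩ ⟨b, hb, rfl⟩
              exact ⟨a * b, P.mul_mem ha hb, hWadd a b ha hb⟩
            neg_mem' := by
              rintro _ ⟨a, ha, rfl⟩
              exact ⟨a⁻¹, P.inv_mem ha, hWinv a ha⟩ }
        obtain ⟨d, hd⟩ := Int.subgroup_cyclic R
        have h1 : d ∈ R := by rw [hd]; exact AddSubgroup.mem_closure_singleton_self d
        obtain ⟨g₁, hg₁, hg₁d⟩ := h1
        refine ⟨g₁, hg₁, fun a ha => ?_⟩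
        have h2 : W a ∈ R := ⟨a, ha, rfl⟩
        rw [hd, AddSubgroup.mem_closure_singleton] at h2
        obtain ⟨n, hn⟩ := h2
        rw [hg₁d, ← hn]
        exact ⟨n, by simp [mul_comm]⟩
      have hσ₁ : g₁ * σ ∉ P := fun h => hσ (by simpa using P.mul_mem (P.inv_mem hg₁) h)
      obtain ⟨M₀, hM₀, hM₀'⟩ := hMex σ hσ
      obtain ⟨M₁, hM₁, hM₁'⟩ := hMex (g₁ * σ) hσ₁
      have hkey : ∀ M : Subgroup G, (∀ x, x ∈ P → (x ∈ M ↔ W x = 0)) → Cov M (2 ^ r) := by
        intro M hM
        refine key M fun t ht htM => ?_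
        have h4 : W t = 0 := (hM t (hTP t ht)).1 htM
        rw [hWT t ht] at h4
        rcases mul_eq_zero.1 h4 with h | h
        · omega
        · exact h
      obtain ⟨S₀, h1, h2, h3⟩ := (hkey M₀ hM₀).of_sub
      obtain ⟨S₁, k1, k2, k3⟩ := (hkey M₁ hM₁).of_sub
      refine ⟨S₀ ∪ S₁, ?_, ?_, ?_⟩
      · refine (Set.encard_union_le _ _).trans ((add_le_add h1 k1).trans ?_)
        rw [pow_succ, mul_two]
        push_cast
        exact le_rfl
      · rintro A (hA | hA)
        · exact h2 A hA
        · exact k2 A hA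
      · intro F hF
        by_cases hFP : ∀ x ∈ F, x ∈ P
        · obtain ⟨A, hA, g, hg⟩ := h3 F hF fun x hx =>
            (hM₀ x (hFP x hx)).2 (hWfin F hF x hx (hFP x hx))
          exact ⟨A, Or.inl hA, g, hg⟩
        · push Not at hFP
          obtain ⟨τ, hτF, hτ⟩ := hFP
          have hσ' : σ⁻¹ ∉ P := fun h => hσ (by simpa using P.inv_mem h)
          have hτ' : τ⁻¹ ∉ P := fun h => hτ (by simpa using P.inv_mem h)
          -- conjugation by an element of `P`
          have hmain : ∀ (g ρ : G) (M : Subgroup G), g ∈ P → ρ ∉ P →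
              (∀ x, x ∈ P → (x ∈ M ↔ W x = 0)) → (∀ x, x ∉ P → (x ∈ M ↔ W (x * ρ⁻¹) = 0)) →
              2 * W g + W (τ * ρ⁻¹) = 0 →
              F.map (MulAut.conj g).toMonoidHom ≤ M := by
            intro g ρ M hg hρ hM hM' hW2
            have hρ' : ρ⁻¹ ∉ P := fun h => hρ (by simpa using P.inv_mem h)
            have hgτ : g * τ * g⁻¹ ∈ M := by
              have hn : g * τ * g⁻¹ ∉ P := by
                intro h
                have := hPconj _ g⁻¹ h
                have h5 : g⁻¹ * (g * τ * g⁻¹) * g⁻¹⁻¹ = τ := by group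
                rw [h5] at this
                exact hτ this
              rw [hM' _ hn]
              have h6 : g * τ * g⁻¹ * ρ⁻¹ = g * (τ * g⁻¹ * τ⁻¹) * (τ * ρ⁻¹) := by group
              have h7 := hPconj g⁻¹ τ (P.inv_mem hg)
              rw [h6, hWadd _ _ (P.mul_mem hg h7) (hmulneg _ _ hτ hρ'), hWadd _ _ hg h7,
                hconjneg _ τ (P.inv_mem hg) hτ, hWinv g hg]
              linarith
            rintro _ ⟨x, hx, rfl⟩
            simp only [MulEquiv.toMonoidHom_eq_coe, MonoidHom.coe_coe, MulAut.conj_apply]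
            by_cases hxP : x ∈ P
            · rw [hM _ (hPconj x g hxP), hconjpos x g hxP hg]
              exact hWfin F hF x hx hxP
            · have h8 : g * x * g⁻¹ = (g * (x * τ⁻¹) * g⁻¹) * (g * τ * g⁻¹) := by group
              rw [h8]
              refine M.mul_mem ?_ hgτ
              have h9 := hmulneg _ _ hxP hτ'
              rw [hM _ (hPconj _ g h9), hconjpos _ g h9 hg]
              exact hWfin F hF _ (F.mul_mem hx (F.inv_mem hτF)) h9
          have hFg : ∀ g : G, ((F.map (MulAut.conj g).toMonoidHom : Subgroup G) : Set G).Finite := by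
            intro g
            rw [Subgroup.coe_map]
            exact hF.image _
          obtain ⟨q, hq⟩ := hgen _ (hmulneg _ _ hτ hσ')
          rcases Int.even_or_odd' q with ⟨p, hp | hp⟩
          · have hle := hmain (g₁ ^ (-p)) σ M₀ (P.zpow_mem hg₁ _) hσ hM₀ hM₀' (by
              have hz : W (g₁ ^ (-p)) = -p * W g₁ := by
                have hn : ∀ k : ℕ, W (g₁ ^ k) = k * W g₁ := hWpow g₁ hg₁
                rcases Int.eq_nat_or_neg (-p) with ⟨k, hk | hk⟩
                · rw [hk, zpow_natCast, hn]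
                · rw [hk, zpow_neg, zpow_natCast, hWinv _ (P.pow_mem hg₁ k), hn]; ring
              rw [hz, hq, hp]; ring)
            obtain ⟨A, hA, g, hg⟩ := h3 _ (hFg _) hle
            refine ⟨A, Or.inl hA, g * g₁ ^ (-p), fun x hx => ?_⟩
            have := hg _ ⟨x, hx, rfl⟩
            simp only [MulEquiv.toMonoidHom_eq_coe, MonoidHom.coe_coe, MulAut.conj_apply] at this
            have h9 : g * g₁ ^ (-p) * x * (g * g₁ ^ (-p))⁻¹ =
              g * (g₁ ^ (-p) * x * (g₁ ^ (-p))⁻¹) * g⁻¹ := by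
              rw [mul_inv_rev]; simp only [mul_assoc]
            rw [h9]
            exact this
          · have hle := hmain (g₁ ^ (-p)) (g₁ * σ) M₁ (P.zpow_mem hg₁ _) hσ₁ hM₁ hM₁' (by
              have hz : W (g₁ ^ (-p)) = -p * W g₁ := by
                have hn : ∀ k : ℕ, W (g₁ ^ k) = k * W g₁ := hWpow g₁ hg₁
                rcases Int.eq_nat_or_neg (-p) with ⟨k, hk | hk⟩
                · rw [hk, zpow_natCast, hn]
                · rw [hk, zpow_neg, zpow_natCast, hWinv _ (P.pow_mem hg₁ k), hn]; ring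
              have h10 : τ * (g₁ * σ)⁻¹ = τ * σ⁻¹ * g₁⁻¹ := by group
              rw [hz, h10, hWadd _ _ (hmulneg _ _ hτ hσ') (P.inv_mem hg₁), hWinv g₁ hg₁, hq, hp]
              ring)
            obtain ⟨A, hA, g, hg⟩ := k3 _ (hFg _) hle
            refine ⟨A, Or.inr hA, g * g₁ ^ (-p), fun x hx => ?_⟩
            have := hg _ ⟨x, hx, rfl⟩
            simp only [MulEquiv.toMonoidHom_eq_coe, MonoidHom.coe_coe, MulAut.conj_apply] at this
            have h9 : g * g₁ ^ (-p) * x * (g * g₁ ^ (-p))⁻¹ =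
              g * (g₁ ^ (-p) * x * (g₁ ^ (-p))⁻¹) * g⁻¹ := by
              rw [mul_inv_rev]; simp only [mul_assoc]
            rw [h9]
            exact this

end Pool.Agent.H959.MF
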